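import Mathlib

/-!
# The classes modulo squares
-/

set_option autoImplicit false

open scoped Classical

namespace Q44.TK

open Finset

/-- the group of the units modulo `m` up to squares -/
def Fm (m : ℕ) : Type := Additive ((ZMod m)ˣ ⧸ (powMonoidHom 2 : (ZMod m)ˣ →* (ZMod m)ˣ).range)

noncomputable instance (m : ℕ) : AddCommGroup (Fm m) := by
  unfold Fm
  infer_instance

theorem fin_Fm (m : ℕ) [NeZero m] : Finite (Fm m) := by
  unfold Fm
  exact inferInstanceAs (Finite ((ZMod m)ˣ ⧸ (powMonoidHom 2 : (ZMod m)ˣ →* (ZMod m)ˣ).range))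

noncomputable instance (m : ℕ) [NeZero m] : Fintype (Fm m) :=
  have := fin_Fm m
  Fintype.ofFinite _

/-- the class of a unit -/
def mkF {m : ℕ} (u : (ZMod m)ˣ) : Fm m :=
  Additive.ofMul (QuotientGroup.mk' (powMonoidHom 2 : (ZMod m)ˣ →* (ZMod m)ˣ).range u)

theorem mkF_mul {m : ℕ} (u v : (ZMod m)ˣ) : mkF (u * v) = mkF u + mkF v := by
  unfold mkF
  rw [map_mul]
  rfl

theorem mkF_one {m : ℕ} : mkF (1 : (ZMod m)ˣ) = 0 := by
  unfold mkF
  rw [map_one]
  rfl

theorem mkF_surj {m : ℕ} (x : Fm m) : ∃ u : (ZMod m)ˣ, mkF u = x := by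
  obtain ⟨u, hu⟩ := QuotientGroup.mk'_surjective
    (powMonoidHom 2 : (ZMod m)ˣ →* (ZMod m)ˣ).range (Additive.toMul x)
  exact ⟨u, congrArg Additive.ofMul hu⟩

theorem mkF_eq {m : ℕ} (u v : (ZMod m)ˣ) : mkF u = mkF v ↔ ∃ w : (ZMod m)ˣ, w ^ 2 = u⁻¹ * v := by
  have e : mkF u = mkF v ↔
      ((u : (ZMod m)ˣ) : (ZMod m)ˣ ⧸ (powMonoidHom 2 : (ZMod m)ˣ →* (ZMod m)ˣ).range) =
      ((v : (ZMod m)ˣ) : (ZMod m)ˣ ⧸ (powMonoidHom 2 : (ZMod m)ˣ →* (ZMod m)ˣ).range) := Iff.rfl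
  rw [e, QuotientGroup.eq, MonoidHom.mem_range]
  rfl

theorem Fm_two {m : ℕ} (x : Fm m) : x + x = 0 := by
  obtain ⟨u, rfl⟩ := mkF_surj x
  rw [← mkF_mul, ← mkF_one, mkF_eq]
  exact ⟨u⁻¹, by rw [mul_one, sq, mul_inv]⟩

/-- the class of a number -/
noncomputable def hF (m p : ℕ) : Fm m :=
  if h : p.Coprime m then mkF (ZMod.unitOfCoprime p h) else 0

theorem hF_pos {m p : ℕ} (h : p.Coprime m) : hF m p = mkF (ZMod.unitOfCoprime p h) := dif_pos h

theorem hF_mul {m p q : ℕ} (hp : p.Coprime m) (hq : q.Coprime m) :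
    hF m (p * q) = hF m p + hF m q := by
  rw [hF_pos hp, hF_pos hq, hF_pos (Nat.Coprime.mul_left hp hq), ← mkF_mul]
  congr 1
  ext
  rw [Units.val_mul, ZMod.coe_unitOfCoprime, ZMod.coe_unitOfCoprime, ZMod.coe_unitOfCoprime,
    Nat.cast_mul]

theorem hF_one {m : ℕ} : hF m 1 = 0 := by
  rw [hF_pos (Nat.coprime_one_left m), ← mkF_one]
  congr 1
  ext
  rw [ZMod.coe_unitOfCoprime, Units.val_one, Nat.cast_one]

theorem hF_sum {m : ℕ} (S : Finset ℕ) (h : ∀ p ∈ S, p.Coprime m) :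
    ∑ p ∈ S, hF m p = hF m (∏ p ∈ S, p) := by
  induction S using Finset.induction_on with
  | empty => rw [Finset.sum_empty, Finset.prod_empty, hF_one]
  | insert p S hp ih =>
    rw [Finset.sum_insert hp, Finset.prod_insert hp, ih fun q hq => h q (Finset.mem_insert_of_mem hq),
      hF_mul (h p (Finset.mem_insert_self p S))]
    exact Nat.Coprime.prod_left fun q hq => h q (Finset.mem_insert_of_mem hq)

/-- the classes are equal if the product is a square -/
theorem hF_eq {m d D : ℕ} (hd : d.Coprime m) (hD : D.Coprime m) :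
    hF m D = hF m d ↔ IsSquare ((d * D : ℕ) : ZMod m) := by
  rw [hF_pos hd, hF_pos hD, mkF_eq]
  have e1 : ((ZMod.unitOfCoprime D hD : (ZMod m)ˣ) : ZMod m) = D := ZMod.coe_unitOfCoprime D hD
  have e2 : ((ZMod.unitOfCoprime d hd : (ZMod m)ˣ) : ZMod m) = d := ZMod.coe_unitOfCoprime d hd
  constructor
  · rintro ⟨w, hw⟩
    have h1 : ZMod.unitOfCoprime D hD * w * (ZMod.unitOfCoprime D hD * w) =
        ZMod.unitOfCoprime d hd * ZMod.unitOfCoprime D hD := by
      have : ZMod.unitOfCoprime D hD * w * (ZMod.unitOfCoprime D hD * w) =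
        ZMod.unitOfCoprime D hD * ZMod.unitOfCoprime D hD * w ^ 2 := by
        rw [sq, mul_mul_mul_comm]
      rw [this, hw, mul_assoc, mul_inv_cancel_left, mul_comm]
    refine ⟨((ZMod.unitOfCoprime D hD * w : (ZMod m)ˣ) : ZMod m), ?_⟩
    rw [← Units.val_mul, h1, Units.val_mul, e1, e2]
    push_cast
    ring
  · rintro ⟨x, hx⟩
    push_cast at hx
    have hu : IsUnit x := by
      have h1 : IsUnit (x * x) := by
        rw [← hx, ← e1, ← e2]
        exact (Units.isUnit _).mul (Units.isUnit _)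
      exact isUnit_of_mul_isUnit_left h1
    obtain ⟨w, rfl⟩ := hu
    refine ⟨(ZMod.unitOfCoprime D hD)⁻¹ * w, ?_⟩
    have h1 : w * w = ZMod.unitOfCoprime d hd * ZMod.unitOfCoprime D hD := by
      ext
      rw [Units.val_mul, Units.val_mul, e1, e2]
      exact hx.symm
    rw [sq, mul_mul_mul_comm, h1]
    rw [mul_comm (ZMod.unitOfCoprime d hd), mul_assoc, inv_mul_cancel_left]

end Q44.TK
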